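import Pool.Agent.H23.GA.Targets

/-!
# The sieve
-/

set_option autoImplicit false

open Finset Polynomial Filter Topology
open scoped Classical

namespace Pool.Agent.H92.GA

open Pool.Agent.H23.GW Pool.Agent.H23.GA

/-- a finite part of a divergent series -/
theorem ex_fin (P : Set ℕ) (hns : ¬ Summable (fun p : P => (1 : ℝ) / p.1)) (C : ℝ) :
    ∃ F : Finset ℕ, (∀ p ∈ F, p ∈ P) ∧ C < ∑ p ∈ F, (1 : ℝ) / p := by
  by_contra hcon
  push Not at hcon
  refine hns (summable_of_sum_le (c := C) (fun p => by positivity) fun s => ?_)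
  have h := hcon (s.map ⟨Subtype.val, Subtype.val_injective⟩) (by
    intro p hp
    rw [Finset.mem_map] at hp
    obtain ⟨q, _, rfl⟩ := hp
    exact q.2)
  rw [Finset.sum_map] at h
  exact h

theorem prod_le_exp (F : Finset ℕ) (hF : ∀ p ∈ F, p.Prime) :
    ∏ p ∈ F, (1 - (1 : ℝ) / p) ≤ Real.exp (-∑ p ∈ F, (1 : ℝ) / p) := by
  rw [← Finset.sum_neg_distrib, Real.exp_sum]
  refine Finset.prod_le_prod (fun p hp => ?_) fun p hp => ?_
  · have h1 : (1 : ℝ) ≤ p := by exact_mod_cast (hF p hp).one_lt.le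
    have h2 : (1 : ℝ) / p ≤ 1 := by
      rw [div_le_one (by linarith)]
      exact h1
    linarith
  · have := Real.add_one_le_exp (-((1 : ℝ) / p))
    linarith

/-- number of residues in one period -/
theorem one_period (F : Finset ℕ) (hF : ∀ p ∈ F, p.Prime) (r : ℕ → ℕ) :
    #{m ∈ range (∏ p ∈ F, p) | ∀ p ∈ F, ¬ m ≡ r p [MOD p]} ≤ ∏ p ∈ F, (p - 1) := by
  have hc : #(F.pi fun p => (range p).erase (r p % p)) = ∏ p ∈ F, (p - 1) := by
    rw [Finset.card_pi]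
    refine Finset.prod_congr rfl fun p hp => ?_
    rw [Finset.card_erase_of_mem, card_range]
    exact mem_range.2 (Nat.mod_lt _ (hF p hp).pos)
  rw [← hc]
  refine Finset.card_le_card_of_injOn (fun m p _ => m % p) ?_ ?_
  · intro m hm
    simp only [coe_filter, Set.mem_ofPred_eq] at hm
    simp only [Finset.mem_coe, Finset.mem_pi, mem_erase, mem_range]
    intro p hp
    exact ⟨hm.2 p hp, Nat.mod_lt _ (hF p hp).pos⟩
  · intro m hm m' hm' h
    simp only [coe_filter, Set.mem_ofPred_eq, mem_range] at hm hm'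
    have hmod : ∀ p ∈ F, m ≡ m' [MOD p] := fun p hp => congrFun (congrFun h p) hp
    have key : ∀ a b : ℕ, a ≤ b → b < ∏ p ∈ F, p → (∀ p ∈ F, a ≡ b [MOD p]) → a = b := by
      intro a b hab hb hm2
      have hd : ∏ p ∈ F, p ∣ b - a := Finset.prod_primes_dvd _ (fun p hp => (hF p hp).prime)
        fun p hp => (Nat.modEq_iff_dvd' hab).1 (hm2 p hp)
      have hlt : b - a < ∏ p ∈ F, p := by omega
      have := Nat.eq_zero_of_dvd_of_lt hd hlt
      omega
    rcases le_total m m' with hle | hle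
    · exact key m m' hle hm'.1 hmod
    · exact (key m' m hle hm.1 fun p hp => (hmod p hp).symm).symm

/-- number of residues below `Y` -/
theorem all_periods (F : Finset ℕ) (hF : ∀ p ∈ F, p.Prime) (r : ℕ → ℕ) (Y : ℕ) :
    #{m ∈ range Y | ∀ p ∈ F, ¬ m ≡ r p [MOD p]} ≤ (Y / (∏ p ∈ F, p) + 1) * ∏ p ∈ F, (p - 1) := by
  set Q := ∏ p ∈ F, p with hQ
  have hQ0 : 0 < Q := Finset.prod_pos fun p hp => (hF p hp).pos
  have hsub : (range Y).filter (fun m => ∀ p ∈ F, ¬ m ≡ r p [MOD p]) ⊆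
      (range (Y / Q + 1)).biUnion fun j => ((range Q).filter
        (fun m => ∀ p ∈ F, ¬ m ≡ r p [MOD p])).image fun m => m + Q * j := by
    intro m hm
    rw [mem_filter, mem_range] at hm
    rw [mem_biUnion]
    refine ⟨m / Q, ?_, ?_⟩
    · rw [mem_range]
      exact Nat.lt_succ_of_le (Nat.div_le_div_right hm.1.le)
    · rw [mem_image]
      refine ⟨m % Q, ?_, Nat.mod_add_div m Q⟩
      rw [mem_filter, mem_range]
      refine ⟨Nat.mod_lt _ hQ0, fun p hp h => hm.2 p hp ?_⟩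
      have hpQ : p ∣ Q := Finset.dvd_prod_of_mem _ hp
      have h1 : m % Q ≡ m [MOD p] := (Nat.mod_modEq m Q).of_dvd hpQ
      exact h1.symm.trans h
  calc _ ≤ _ := card_le_card hsub
    _ ≤ ∑ j ∈ range (Y / Q + 1), #(((range Q).filter
        (fun m => ∀ p ∈ F, ¬ m ≡ r p [MOD p])).image fun m => m + Q * j) := card_biUnion_le
    _ ≤ ∑ j ∈ range (Y / Q + 1), ∏ p ∈ F, (p - 1) := by
        refine Finset.sum_le_sum fun j _ => ?_
        exact card_image_le.trans (one_period F hF r)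
    _ = _ := by rw [sum_const, card_range, smul_eq_mul]

theorem sv : T_SV := by
  intro S P r hP hns hT
  rw [Metric.tendsto_atTop]
  intro ε hε
  -- choose the finite set
  obtain ⟨F, hFP, hFs⟩ := ex_fin P hns (-Real.log (ε / 4))
  have hF : ∀ p ∈ F, p.Prime := fun p hp => hP p (hFP p hp)
  set Q := ∏ p ∈ F, p with hQ
  have hQ0 : 0 < Q := Finset.prod_pos fun p hp => (hF p hp).pos
  have hprod : (∏ p ∈ F, (((p - 1 : ℕ) : ℝ))) / Q < ε / 4 := by
    have e : (∏ p ∈ F, (((p - 1 : ℕ) : ℝ))) / Q = ∏ p ∈ F, (1 - (1 : ℝ) / p) := by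
      rw [hQ]
      push_cast
      rw [← Finset.prod_div_distrib]
      refine Finset.prod_congr rfl fun p hp => ?_
      have h1 : (p : ℝ) ≠ 0 := by exact_mod_cast (hF p hp).ne_zero
      rw [Nat.cast_sub (hF p hp).one_lt.le]
      push_cast
      field_simp
    rw [e]
    refine lt_of_le_of_lt (prod_le_exp F hF) ?_
    rw [← Real.lt_log_iff_exp_lt (by positivity)]
    linarith
  -- limits
  have hlim1 : Tendsto (fun Y : ℕ => ∑ p ∈ F, (#{m ∈ range Y | m ∈ S ∧ m ≡ r p [MOD p]} : ℝ) / Y)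
      atTop (𝓝 0) := by
    have := tendsto_finsetSum F fun p hp => hT p (hFP p hp)
    simpa using this
  have hlim2 : Tendsto (fun Y : ℕ => (∏ p ∈ F, (((p - 1 : ℕ) : ℝ))) / (Y : ℝ)) atTop (𝓝 0) :=
    Tendsto.const_div_atTop tendsto_natCast_atTop_atTop _
  obtain ⟨N1, hN1⟩ := (Metric.tendsto_atTop.1 hlim1) (ε / 4) (by positivity)
  obtain ⟨N2, hN2⟩ := (Metric.tendsto_atTop.1 hlim2) (ε / 4) (by positivity)
  refine ⟨max (max N1 N2) 1, fun Y hY => ?_⟩
  have hY1 := hN1 Y ((le_max_left _ _).trans ((le_max_left _ _).trans hY))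
  have hY2 := hN2 Y ((le_max_right _ _).trans ((le_max_left _ _).trans hY))
  have hY0 : (0 : ℝ) < Y := by
    have : 1 ≤ Y := (le_max_right _ _).trans hY
    exact_mod_cast this
  rw [Real.dist_eq, sub_zero] at hY1 hY2 ⊢
  have hY1' := (abs_lt.1 hY1).2
  have hY2' := (abs_lt.1 hY2).2
  rw [abs_of_nonneg (by positivity)]
  -- counting
  have hcount : #{m ∈ range Y | m ∈ S} ≤ (∑ p ∈ F, #{m ∈ range Y | m ∈ S ∧ m ≡ r p [MOD p]})
      + (Y / Q + 1) * ∏ p ∈ F, (p - 1) := by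
    have hsub : (range Y).filter (fun m => m ∈ S) ⊆
        (F.biUnion fun p => (range Y).filter (fun m => m ∈ S ∧ m ≡ r p [MOD p])) ∪
        (range Y).filter (fun m => ∀ p ∈ F, ¬ m ≡ r p [MOD p]) := by
      intro m hm
      rw [mem_filter] at hm
      rw [mem_union, mem_biUnion]
      by_cases h : ∃ p ∈ F, m ≡ r p [MOD p]
      · obtain ⟨p, hp, hmp⟩ := h
        exact Or.inl ⟨p, hp, mem_filter.2 ⟨hm.1, hm.2, hmp⟩⟩
      · push Not at h
        exact Or.inr (mem_filter.2 ⟨hm.1, h⟩)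
    calc _ ≤ _ := card_le_card hsub
      _ ≤ _ := card_union_le _ _
      _ ≤ _ := add_le_add card_biUnion_le (all_periods F hF r Y)
  have hcR : (#{m ∈ range Y | m ∈ S} : ℝ) ≤
      (∑ p ∈ F, (#{m ∈ range Y | m ∈ S ∧ m ≡ r p [MOD p]} : ℝ))
      + ((Y : ℝ) / Q + 1) * ∏ p ∈ F, (((p - 1 : ℕ) : ℝ)) := by
    have h1 : ((#{m ∈ range Y | m ∈ S} : ℕ) : ℝ) ≤
        (((∑ p ∈ F, #{m ∈ range Y | m ∈ S ∧ m ≡ r p [MOD p]})
      + (Y / Q + 1) * ∏ p ∈ F, (p - 1) : ℕ) : ℝ) := by exact_mod_cast hcount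
    push_cast at h1
    refine h1.trans ?_
    have h2 : ((Y / Q : ℕ) : ℝ) ≤ (Y : ℝ) / Q := Nat.cast_div_le
    have h3 : (0 : ℝ) ≤ ∏ p ∈ F, (((p - 1 : ℕ) : ℝ)) := Finset.prod_nonneg fun p _ => by positivity
    have h4 := mul_le_mul_of_nonneg_right (add_le_add h2 (le_refl (1 : ℝ))) h3
    linarith
  have hQR : (0 : ℝ) < Q := by exact_mod_cast hQ0
  calc (#{m ∈ range Y | m ∈ S} : ℝ) / Y ≤
      ((∑ p ∈ F, (#{m ∈ range Y | m ∈ S ∧ m ≡ r p [MOD p]} : ℝ))
      + ((Y : ℝ) / Q + 1) * ∏ p ∈ F, (((p - 1 : ℕ) : ℝ))) / Y :=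
        div_le_div_of_nonneg_right hcR hY0.le
    _ = (∑ p ∈ F, (#{m ∈ range Y | m ∈ S ∧ m ≡ r p [MOD p]} : ℝ) / Y)
      + (∏ p ∈ F, (((p - 1 : ℕ) : ℝ))) / Q + (∏ p ∈ F, (((p - 1 : ℕ) : ℝ))) / Y := by
        rw [← Finset.sum_div]
        field_simp
        ring
    _ < ε / 4 + ε / 4 + ε / 4 := add_lt_add (add_lt_add hY1' hprod) hY2'
    _ < ε := by linarith

end Pool.Agent.H92.GA
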